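import Pool.Agent.Lib_helper75.Heun.Final

/-!
# The double-eigenvalue locus of the special double confluent Heun equations

The equation is `z² E'' + ((1 - l) z + mu (1 - z²)) E' + (lam + mu (l - 1) z) E = 0` on `ℂ*`.

Definitions (in `Pool.Agent.Lib_helper75.Heun.Defs`):

* `IsSol l lam mu f`: the entire function `f` of `s`, viewed as a multivalued function `E` of
  `z = exp s` (a function on the universal covering of `ℂ*`), is a solution; here the derivative
  `dE/dz` is `dz f = fun s => deriv f s / exp s`;
* `Sol l lam mu`: the space of solutions;
* `monodromy l lam mu`: the monodromy operator `f(s) ↦ f(s + 2πi)` on `Sol l lam mu`;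
* `SigmaTilde`: the set of parameters `(l, lam, mu) ∈ ℂ³` for which the characteristic polynomial of
  the monodromy operator has a root of multiplicity at least two;
* `IsAnalyticSubset A`: `A` is a complex analytic subset of `ℂ³`.

The theorem says that `SigmaTilde` is equal to the smallest analytic subset `LTilde` of `ℂ³` which
contains all real points `(l, lam, mu)` of `SigmaTilde` with `lam + mu² > 0`.

Outline of the proof.  `SigmaTilde` is the zero set of the entire function
`tr(M)² - 4 exp(2πi l)`.  After a gauge transformation to a Hill type equation with bounded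
potential, the parameter `Lam = l²/4 - lam - mu²/2` is within `|mu| (|l| + 1) + |mu|²/2` of some
`n²/4`.  Hence over a bounded set of `(l, mu)` there are zero free circles of arbitrarily large
radius in the `Lam` plane, and (weighted argument principle) the set of parameters for which all
zeros inside such a circle belong to a given analytic set is itself analytic.  So it suffices to
treat small real `mu`, where at most two zeros are near `n²/4` (one if `n = 0`).  At `l = n + 2` a
finite Jacobi matrix (polynomial solutions) provides two distinct real zeros near `n²/4`, which stay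
real and satisfy `lam + mu² > 0` for all real `l` near `n + 2`.
-/

namespace Pool.Agent.Results.MP_d1051d_an.LocusEqualsL

open Pool.Agent.Lib_helper75.Heun

/-- The real points `(l, lam, mu)` of `SigmaTilde` with `lam + mu² > 0`. -/
def RealPart : Set (ℂ × ℂ × ℂ) :=
  {p | ∃ l lam mu : ℝ, p = ((l : ℂ), (lam : ℂ), (mu : ℂ)) ∧ p ∈ SigmaTilde ∧ 0 < lam + mu ^ 2}

/-- The intersection of all complex analytic subsets of `ℂ³` which contain `RealPart`. -/
def LTilde : Set (ℂ × ℂ × ℂ) :=
  ⋂₀ {A : Set (ℂ × ℂ × ℂ) | IsAnalyticSubset A ∧ RealPart ⊆ A}

/-- The locus `SigmaTilde` is equal to `LTilde`, and `LTilde` is the smallest analytic subset of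
`ℂ³` containing the real points of `SigmaTilde` with `lam + mu² > 0`.  (The solution spaces are
two-dimensional: this is `finrank_Sol`, proved in the imported files.) -/
theorem result :
    SigmaTilde = LTilde ∧
    IsLeast {A : Set (ℂ × ℂ × ℂ) | IsAnalyticSubset A ∧ RealPart ⊆ A} LTilde := by
  have hsub : RealPart ⊆ SigmaTilde := by
    rintro p ⟨l, lam, mu, _, h, _⟩
    exact h
  have hle : ∀ A : Set (ℂ × ℂ × ℂ), IsAnalyticSubset A → RealPart ⊆ A → SigmaTilde ⊆ A := by
    intro A hA hR
    refine SigmaTilde_subset hA (fun l lam mu h hpos => ?_)
    exact hR ⟨l, lam, mu, rfl, h, hpos⟩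
  have heq : SigmaTilde = LTilde := by
    apply Set.Subset.antisymm
    · exact Set.subset_sInter (fun A hA => hle A hA.1 hA.2)
    · exact Set.sInter_subset_of_mem ⟨isAnalyticSubset_SigmaTilde, hsub⟩
  refine ⟨heq, ?_, ?_⟩
  · rw [← heq]
    exact ⟨isAnalyticSubset_SigmaTilde, hsub⟩
  · rintro A ⟨hA, hR⟩
    rw [← heq]
    exact hle A hA hR

end Pool.Agent.Results.MP_d1051d_an.LocusEqualsL
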